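import Pool.Agent.H14.LB.Baire
import Pool.Agent.H87.LB.Star
import Pool.Agent.H14.LB.Hyp

/-!
# STEPE: a closed orbit of the first flow which is not shadowed by the second flow (MP_fc7159_al)

If all closed orbits of `Φ₁` were shadowed by lines of `Φ₂` then, since closed orbits are dense and
lines of `Φ₂` are closed under limits, every line of `Φ₁` would be shadowed by a line of `Φ₂`
(`exists_shadow`). The `P`-image of a flow line is a point, and it has distance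
`O(lam ^ (- level))` from the point `q` of the limit set which belongs to the leaf through the
line of `Φ₂`; going up to infinite level the image is equal to `q`. This contradicts the existence
of a generic point (`exists_generic`).
-/

open scoped Pointwise Topology

noncomputable section

namespace LB

variable {G : Type} [Group G]

namespace FlowSystem

variable {u : G →* Multiplicative ℤ} (Φ : FlowSystem G u)

lemma iterate_flowLine {x : ℤ → Φ.X} (hx : Φ.IsFlowLine x) (k : ℕ) (i : ℤ) :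
    Φ.F^[k] (x i) = x (i + k) := by
  induction k with
  | zero => simp
  | succ k ih =>
    rw [Function.iterate_succ_apply', ih, hx]
    congr 1
    push_cast
    ring

lemma exists_near : ∃ B : Finset G, ∀ (a b : G) (z : Φ.X), (∃ y ∈ Φ.K, z = a • y) →
    (∃ y ∈ Φ.K, z = b • y) → a⁻¹ * b ∈ B := by
  have hfin := Φ.proper Φ.K Φ.K_compact
  refine ⟨hfin.toFinset, ?_⟩
  rintro a b z ⟨y, hy, hzy⟩ ⟨y', hy', hzy'⟩
  rw [Set.Finite.mem_toFinset]
  refine ⟨y', hy', ?_⟩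
  rw [mul_smul, ← hzy', hzy, inv_smul_smul]
  exact hy

end FlowSystem

lemma IsQG.mono {A : Finset G} {C C' : ℕ} (h : C ≤ C') {p : ℤ → G} {a b : ℤ}
    (hp : IsQG A C p a b) : IsQG A C' p a b := by
  intro i j hai hij hjb
  obtain ⟨h1, h2⟩ := hp i j hai hij hjb
  have hC : (C : ℤ) ≤ C' := by exact_mod_cast h
  have hw : (0 : ℤ) ≤ wd A (p i) (p j) := by positivity
  have hd : 0 ≤ j - i := by linarith
  constructor <;> nlinarith

/-- If all closed orbits of `Φ₁` are shadowed by `Φ₂`, then all lines of `Φ₁` are. -/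
theorem Published.exists_shadow (P : Published G)
    (hall : ∀ g : G, P.Φ₁.ClosedOrbit g → Shadowed P.Φ₂ g) :
    ∃ D : Finset G, ∀ (x : ℤ → P.Φ₁.X) (ρ : ℤ → G), P.Φ₁.IsFlowLine x →
      (∀ i, ∃ y ∈ P.Φ₁.K, x i = ρ i • y) →
      ∃ γ : ℤ → G, P.Φ₂.IsLine γ ∧ ∀ i, ∃ j, (ρ i)⁻¹ * γ j ∈ D := by
  obtain ⟨C1, hC1⟩ := P.Φ₁.isQG_line P.A P.genA
  obtain ⟨C2, hC2⟩ := P.Φ₂.isQG_line P.A P.genA
  obtain ⟨D0, hD0⟩ := P.morse (max C1 C2)
  obtain ⟨B, hB⟩ := P.Φ₁.exists_near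
  have hfin : ((B : Set G) * (B : Set G) * (D0 : Set G)).Finite :=
    ((B.finite_toSet.mul B.finite_toSet).mul D0.finite_toSet)
  refine ⟨hfin.toFinset, ?_⟩
  intro x ρ hx hρ
  refine P.Φ₂.lim_line ρ _ fun n => ?_
  obtain ⟨x', hx', ⟨g, k, hk, hper⟩, hagree⟩ := P.dense₁ x hx n
  have hg : P.Φ₁.ClosedOrbit g := by
    refine ⟨x' 0, k, hk, ?_⟩
    rw [P.Φ₁.iterate_flowLine hx', hper 0]
  obtain ⟨γ, hγ, Dg, hDg⟩ := hall g hg
  obtain ⟨ρ', hρ'⟩ := P.Φ₁.exists_coarse hx'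
  refine ⟨γ, hγ, ?_⟩
  -- powers of the period
  have hpow : ∀ (m : ℤ) (r : ℤ), x' (r + m * k) = g ^ m • x' r := by
    intro m
    induction m using Int.induction_on with
    | zero => intro r; simp
    | succ m ih =>
      intro r
      have := hper (r + m * k)
      rw [ih r] at this
      rw [show r + ((m : ℤ) + 1) * k = r + m * k + k by ring, this, smul_smul, zpow_add_one,
        (Commute.refl g).zpow_right m |>.eq]
    | pred m ih =>
      intro r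
      have h1 := hper (r + (-(m : ℤ) - 1) * k)
      rw [show r + (-(m : ℤ) - 1) * k + k = r + -(m : ℤ) * k by ring, ih r] at h1
      have h2 : g • x' (r + (-(m : ℤ) - 1) * k) = g • g ^ (-(m : ℤ) - 1) • x' r := by
        rw [← h1, smul_smul, ← zpow_one_add, show (1 : ℤ) + (-(m : ℤ) - 1) = -(m : ℤ) by ring]
      exact smul_left_cancel _ h2
  -- the coarse periodic line is near its shadow
  have hk0 : (0 : ℤ) < k := by exact_mod_cast hk
  have hD' : ∃ D' : Finset G, ∀ i, ∃ j, (ρ' i)⁻¹ * γ j ∈ D' := by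
    have hfin' : ((B : Set G) * ((fun r : ℕ => (ρ' (r : ℤ))⁻¹) '' (Set.Iio k)) *
        (Dg : Set G)).Finite :=
      ((B.finite_toSet.mul ((Set.finite_Iio k).image _)).mul Dg.finite_toSet)
    refine ⟨hfin'.toFinset, fun i => ?_⟩
    obtain ⟨j, hj⟩ := hDg (i / k)
    refine ⟨j, ?_⟩
    rw [Set.Finite.mem_toFinset]
    have hr0 := Int.emod_nonneg i hk0.ne'
    have hrk := Int.emod_lt_of_pos i hk0
    have hi := Int.emod_add_mul_ediv i k
    have hi' : i = ((i % k).toNat : ℤ) + i / k * k := by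
      rw [Int.toNat_of_nonneg hr0]
      linarith [mul_comm (i / (k : ℤ)) (k : ℤ)]
    have h1 : (ρ' i)⁻¹ * (g ^ (i / k) * ρ' ((i % k).toNat : ℤ)) ∈ B := by
      refine hB _ _ (x' i) (hρ' i) ?_
      obtain ⟨y, hy, hxy⟩ := hρ' ((i % k).toNat : ℤ)
      refine ⟨y, hy, ?_⟩
      rw [mul_smul, ← hxy, ← hpow, ← hi']
    refine Set.mem_mul.2 ⟨_, Set.mem_mul.2 ⟨_, h1, (ρ' ((i % k).toNat : ℤ))⁻¹,
      ⟨(i % k).toNat, ?_, rfl⟩, rfl⟩, _, hj, ?_⟩
    · show (i % k).toNat < k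
      omega
    · group
  have hnear := hD0 ρ' γ (fun a b => (hC1 ρ' ⟨x', hx', hρ'⟩ a b).mono (le_max_left _ _))
    (fun a b => (hC2 γ hγ a b).mono (le_max_right _ _)) hD'
  intro i hi
  obtain ⟨a, ha, ha'⟩ := hagree i hi
  obtain ⟨j, hj⟩ := hnear i
  refine ⟨j, ?_⟩
  rw [Set.Finite.mem_toFinset]
  have h1 : (ρ i)⁻¹ * a ∈ B := hB _ _ (x i) (hρ i) ha
  have h2 : a⁻¹ * ρ' i ∈ B := hB _ _ (x' i) ha' (hρ' i)
  refine Set.mem_mul.2 ⟨_, Set.mem_mul.2 ⟨_, h1, _, h2, rfl⟩, _, hj, ?_⟩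
  group

/-- STEPE: some closed orbit of `Φ₁` is not shadowed by `Φ₂`. -/
theorem Published.exists_unshadowed (P : Published G) :
    ∃ g : G, P.Φ₁.ClosedOrbit g ∧ ¬ Shadowed P.Φ₂ g := by
  by_contra hcon
  push Not at hcon
  obtain ⟨D, hD⟩ := P.exists_shadow hcon
  obtain ⟨x0, hx0⟩ := P.exists_generic
  obtain ⟨x, hx, hx00⟩ := P.Φ₁.exists_flowLine x0
  obtain ⟨ρ, hρ⟩ := P.Φ₁.exists_coarse hx
  obtain ⟨γ, hγ, hnear⟩ := hD x ρ hx hρ
  obtain ⟨q, ⟨g, ω, hω, hq⟩, hleaf⟩ := P.leaf γ hγ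
  have hlam0 : 0 < P.lam := by linarith [P.one_lt_lam]
  -- `P` is constant on the flow line
  have hPx : ∀ n : ℕ, P.P (x n) = P.P x0 := by
    intro n
    induction n with
    | zero => rw [← hx00]; rfl
    | succ n ih =>
      rw [← ih, show ((n + 1 : ℕ) : ℤ) = (n : ℤ) + 1 by push_cast; ring, ← hx n, P.P_flow]
  -- a bound
  obtain ⟨R, hR⟩ : ∃ R : ℝ, ∀ d ∈ D, ∀ y ∈ P.Φ₁.K, ∀ y' ∈ P.K', dist (P.P y) (P.P (d • y')) ≤ R := by
    have h1 : IsCompact (P.P '' P.Φ₁.K ∪ ⋃ d ∈ D, P.P '' ((fun y => d • y) '' P.K')) := by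
      refine (P.Φ₁.K_compact.image P.P_cont).union (D.finite_toSet.isCompact_biUnion fun d _ => ?_)
      exact (P.K'_compact.image (P.Φ₁.cont d)).image P.P_cont
    obtain ⟨R, hR⟩ := (Metric.isBounded_iff.1 h1.isBounded)
    refine ⟨R, fun d hd y hy y' hy' => hR (Or.inl ⟨y, hy, rfl⟩) (Or.inr ?_)⟩
    exact Set.mem_biUnion (x := d) hd ⟨d • y', ⟨y', hy', rfl⟩, rfl⟩
  obtain ⟨R', hR'⟩ : ∃ R' : ℝ, ∀ d ∈ D, P.lam ^ (-(P.u d).toAdd) ≤ R' := by
    refine ⟨∑ d ∈ D, P.lam ^ (-(P.u d).toAdd), fun d hd => ?_⟩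
    exact Finset.single_le_sum (f := fun d => P.lam ^ (-(P.u d).toAdd))
      (fun d _ => (zpow_pos hlam0 _).le) hd
  have hdist : ∀ n : ℕ, dist (P.P x0) q ≤
      (R + |P.C'| * R') * P.lam ^ (-(P.Φ₁.level x0 + n)) := by
    intro n
    obtain ⟨j, hj⟩ := hnear n
    obtain ⟨y', hy', hd⟩ := hleaf j
    obtain ⟨y, hy, hxy⟩ := hρ n
    have hu : (P.u (ρ n)).toAdd = P.Φ₁.level x0 + n := by
      rw [P.Φ₁.height_eq_level hρ n, P.Φ₁.level_flowLine hx 0 n, hx00, sub_zero]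
    obtain ⟨d, hdd⟩ : ∃ d, d = (ρ n)⁻¹ * γ j := ⟨_, rfl⟩
    rw [← hdd] at hj
    have hγj : γ j = ρ n * d := by rw [hdd]; group
    have hlev : P.Φ₁.level (γ j • y') = P.Φ₁.level x0 + n + (P.u d).toAdd := by
      rw [P.Φ₁.level_smul, P.K'_level y' hy', hγj, map_mul, toAdd_mul, hu]
      ring
    have h1 : dist (P.P x0) (P.P (γ j • y')) ≤ R * P.lam ^ (-(P.Φ₁.level x0 + n)) := by
      rw [← hPx n, hxy, hγj, mul_smul, P.P_smul, P.P_smul, P.scale, hu, mul_comm]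
      exact mul_le_mul_of_nonneg_right (hR d hj y hy y' hy') (zpow_pos hlam0 _).le
    have h2 : dist (P.P (γ j • y')) q ≤ |P.C'| * R' * P.lam ^ (-(P.Φ₁.level x0 + n)) := by
      refine hd.trans ?_
      rw [hlev, neg_add, zpow_add₀ hlam0.ne']
      have h3 := hR' d hj
      have h4 : 0 < P.lam ^ (-(P.Φ₁.level x0 + n)) := zpow_pos hlam0 _
      have h5 : 0 < P.lam ^ (-(P.u d).toAdd) := zpow_pos hlam0 _
      calc P.C' * (P.lam ^ (-(P.Φ₁.level x0 + n)) * P.lam ^ (-(P.u d).toAdd))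
          ≤ |P.C'| * (P.lam ^ (-(P.Φ₁.level x0 + n)) * P.lam ^ (-(P.u d).toAdd)) :=
            mul_le_mul_of_nonneg_right (le_abs_self _) (by positivity)
        _ ≤ |P.C'| * (P.lam ^ (-(P.Φ₁.level x0 + n)) * R') :=
            mul_le_mul_of_nonneg_left (mul_le_mul_of_nonneg_left h3 h4.le) (abs_nonneg _)
        _ = _ := by ring
    calc dist (P.P x0) q ≤ dist (P.P x0) (P.P (γ j • y')) + dist (P.P (γ j • y')) q :=
          dist_triangle _ _ _
      _ ≤ _ := by rw [add_mul]; exact add_le_add h1 h2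
  have hzero : dist (P.P x0) q ≤ 0 := by
    have hinv : P.lam⁻¹ < 1 := inv_lt_one_of_one_lt₀ P.one_lt_lam
    have ht : Filter.Tendsto (fun n : ℕ => (R + |P.C'| * R') * P.lam ^ (-P.Φ₁.level x0) *
        P.lam⁻¹ ^ n) Filter.atTop (𝓝 0) := by
      simpa using (tendsto_pow_atTop_nhds_zero_of_lt_one (inv_nonneg.2 hlam0.le) hinv).const_mul
        ((R + |P.C'| * R') * P.lam ^ (-P.Φ₁.level x0))
    refine ge_of_tendsto' ht fun n => (hdist n).trans_eq ?_
    rw [neg_add, zpow_add₀ hlam0.ne', zpow_neg _ (n : ℤ), zpow_natCast, inv_pow, mul_assoc]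
  have : P.P x0 = q := dist_le_zero.1 hzero
  exact hx0 g ω hω (this.trans hq)

end LB
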